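import Mathlib

/-!
# A rigid maximally diameter-`5` set with `33` points in the `7`-dimensional hypercube

So `b'(7; 5) ≥ 33 > 2 ^ 5`.  The set was found by computer; its points are encoded by numbers
whose binary digits are the coordinates.
-/

namespace Pool.Agent.Results.MP_b9e9b1_co.LargerRigidSet

/-- The diameter of `A ⊆ {0, 1}^n` in the Hamming distance is `r`. -/
def HasDiam {n : ℕ} (A : Finset (Fin n → Bool)) (r : ℕ) : Prop :=
  (∀ x ∈ A, ∀ y ∈ A, hammingDist x y ≤ r) ∧ ∃ x ∈ A, ∃ y ∈ A, hammingDist x y = r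

/-- `A` is maximally diameter-`r`: it has diameter `r`, and adding any point gives a set of
larger diameter. -/
def MaxDiam {n : ℕ} (A : Finset (Fin n → Bool)) (r : ℕ) : Prop :=
  HasDiam A r ∧ ∀ z, z ∉ A → ∃ x ∈ insert z A, ∃ y ∈ insert z A, r < hammingDist x y

/-- `A`, of diameter `r`, is rigid: every point of `A` has a point of `A` at distance `r`. -/
def Rigid {n : ℕ} (A : Finset (Fin n → Bool)) (r : ℕ) : Prop :=
  ∀ a ∈ A, ∃ x ∈ A, hammingDist x a = r

/-- Codes of the points. -/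
def codes : List ℕ :=
  [0, 1, 2, 3, 7, 9, 10, 11, 12, 13, 14, 15, 16, 18, 19, 22, 24, 25, 26, 28, 30, 31, 40, 42, 55,
    66, 68, 75, 78, 89, 90, 91, 106]

/-- The point with a given code. -/
def pt (c : ℕ) : Fin 7 → Bool := fun i => c.testBit i

/-- The set. -/
def A : Finset (Fin 7 → Bool) := (codes.map pt).toFinset

lemma mem_A (x : Fin 7 → Bool) : x ∈ A ↔ ∃ c ∈ codes, pt c = x := by
  simp [A]

/-- Every point is the point with some code. -/
lemma exists_code : ∀ x : Fin 7 → Bool, ∃ c < 128, pt c = x := by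
  decide +kernel

lemma diam_le : ∀ c ∈ codes, ∀ d ∈ codes, hammingDist (pt c) (pt d) ≤ 5 := by
  decide +kernel

lemma max_diam : ∀ c < 128, c ∈ codes ∨ ∃ d ∈ codes, 5 < hammingDist (pt c) (pt d) := by
  decide +kernel

lemma rigid : ∀ c ∈ codes, ∃ d ∈ codes, hammingDist (pt d) (pt c) = 5 := by
  decide +kernel

lemma card_A : A.card = 33 := by
  have h : (codes.map pt).Nodup := by decide +kernel
  rw [A, List.toFinset_card_of_nodup h]
  rfl

/-- There are `n ≥ r` and a rigid, maximally diameter-`r` set with more than `2 ^ r` points in the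
`n`-dimensional hypercube. -/
theorem result : ∃ (n r : ℕ) (A : Finset (Fin n → Bool)), r ≤ n ∧ MaxDiam A r ∧ Rigid A r ∧
    2 ^ r < A.card := by
  refine ⟨7, 5, A, by norm_num, ⟨⟨?_, ?_⟩, ?_⟩, ?_, ?_⟩
  · intro x hx y hy
    obtain ⟨c, hc, rfl⟩ := (mem_A x).1 hx
    obtain ⟨d, hd, rfl⟩ := (mem_A y).1 hy
    exact diam_le c hc d hd
  · obtain ⟨d, hd, h⟩ := rigid 0 (by decide)
    exact ⟨pt d, (mem_A _).2 ⟨d, hd, rfl⟩, pt 0, (mem_A _).2 ⟨0, by decide, rfl⟩, h⟩
  · intro z hz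
    obtain ⟨c, hc, rfl⟩ := exists_code z
    rcases max_diam c hc with h | ⟨d, hd, h⟩
    · exact absurd ((mem_A _).2 ⟨c, h, rfl⟩) hz
    · exact ⟨pt c, Finset.mem_insert_self _ _, pt d,
        Finset.mem_insert_of_mem ((mem_A _).2 ⟨d, hd, rfl⟩), h⟩
  · intro a ha
    obtain ⟨c, hc, rfl⟩ := (mem_A a).1 ha
    obtain ⟨d, hd, h⟩ := rigid c hc
    exact ⟨pt d, (mem_A _).2 ⟨d, hd, rfl⟩, h⟩
  · rw [card_A]
    norm_num

end Pool.Agent.Results.MP_b9e9b1_co.LargerRigidSet
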